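import Pool.Agent.KCM6f5b46.Final

/-!
Disproof of Q1 of `MP_6f5b46_pr` in every dimension `d ≥ 2`.

The KCM is the Fredrickson-Andersen model `FA-4f` on `ℤ^d` (a site is updated at rate one as soon
as at least four of its nearest neighbours are empty). For `d = 2` this is the heat bath dynamics
of the hard-core lattice gas on `ℤ^2` with activity `p / q`. In dimension `d ≥ 2` configurations
that are filled off a coordinate plane and form an independent set on the plane are preserved, and
the dynamics on the plane is that of the hard-core model. For small `q` the hard-core model on
`ℤ^2` has two different Gibbs measures (Peierls argument), both are stationary for the KCM, but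
both live on the configurations `η` with `[η] = β` for one and the same `β` (empty exactly on the
plane), so at most one of them can be a mixture of the measures `π_β`.

All definitions are in `Pool/Agent/KCM6f5b46/Defs.lean`.
-/

open MeasureTheory Pool.Agent.KCM6f5b46

namespace Pool.Agent.Results.MP_6f5b46_pr.PhaseCoexistence

/-- For every `d ≥ 2` and every `q ∈ (0, 10⁻¹⁸)`, the model `FA-4f` on `ℤ^d` has a unique Markov
semigroup, and it has a stationary probability measure `μ` for which there is no probability
measure `μ_*` on `ℰ` concentrated on admissible `β` with `μ(f) = ∫ π_β(f) dμ_*(β)` for all local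
`f`. -/
theorem result : ∀ d : ℕ, 2 ≤ d → ∀ q : ℝ, 0 < q → q < 1 / 10 ^ 18 →
    (∃! P, IsSemigroup (FA4 d) q P) ∧
      ∃ μ : Measure (Config d), IsProbabilityMeasure μ ∧ IsStationary (FA4 d) q μ ∧
        ¬ IsMixture (FA4 d) q μ :=
  fun _ hd _ hq hq18 => main hd hq hq18

end Pool.Agent.Results.MP_6f5b46_pr.PhaseCoexistence
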